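import Pool.Agent.Y418.BG.Breaker
import Pool.Agent.W315.BGame
import Pool.Agent.W315.ForcerLat

/-!
Breaker's strategy against all `q × q` lattices in the `(a:b)` game (Erdos-Selfridge-Beck criterion).
-/

set_option autoImplicit false
set_option linter.unusedSectionVars false
set_option linter.unusedVariables false

namespace Pool.Agent.Y929.MB

open Finset Pool.Agent Pool.Agent.W315 Pool.Agent.W315.Lat

/-- Breaker (moving second) has a strategy in the `(m:b)` game with which, at the end of every play,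
Maker does not own all points of a `q × q` lattice of class `X`. -/
def BreakerPrevents (m b N : ℕ) (X : Cls) (q : ℕ) : Prop :=
  ∃ τ : List (Finset (ℤ × ℤ)) → Finset (ℤ × ℤ), IsStrategy m b N 1 τ ∧
    ∀ h : List (Finset (ℤ × ℤ)), IsPlay m b N h → Follows 1 τ h → unclaimed N h = ∅ →
      ¬ HasLattice X q (Owned 0 h)

/-- Two strategies, one for each player, are followed together in some complete play. -/
lemma exists_complete_play {b₀ b₁ N : ℕ} (σ τ : List (Finset (ℤ × ℤ)) → Finset (ℤ × ℤ))
    (hσ : IsStrategy b₀ b₁ N 0 σ) (hτ : IsStrategy b₀ b₁ N 1 τ) :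
    ∃ h : List (Finset (ℤ × ℤ)), IsPlay b₀ b₁ N h ∧ Follows 0 σ h ∧ Follows 1 τ h ∧
      unclaimed N h = ∅ := by
  have hb0 : ∀ i : ℕ, i % 2 = 0 → bias b₀ b₁ i = bias b₀ b₁ 0 := by
    intro i hi
    unfold bias
    rw [if_pos hi, if_pos rfl]
  have hb1 : ∀ i : ℕ, i % 2 = 1 → bias b₀ b₁ i = bias b₀ b₁ 1 := by
    intro i hi
    unfold bias
    rw [if_neg (by omega), if_neg (by norm_num)]
  have key : ∀ (n : ℕ) (h : List (Finset (ℤ × ℤ))), (unclaimed N h).card = n → IsPlay b₀ b₁ N h →
      Follows 0 σ h → Follows 1 τ h → ∃ h : List (Finset (ℤ × ℤ)), IsPlay b₀ b₁ N h ∧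
        Follows 0 σ h ∧ Follows 1 τ h ∧ unclaimed N h = ∅ := by
    intro n
    induction n using Nat.strong_induction_on with
    | _ n ih =>
      intro h hn hp hf hg
      by_cases hne : (unclaimed N h).Nonempty
      · obtain ⟨m, hm, hm0, hm1⟩ : ∃ m, IsLegalMove (bias b₀ b₁ h.length) N h m ∧
            (h.length % 2 = 0 → m = σ h) ∧ (h.length % 2 = 1 → m = τ h) := by
          by_cases hl : h.length % 2 = 0
          · refine ⟨σ h, ?_, fun _ => rfl, fun e => by omega⟩
            rw [hb0 _ hl]
            exact hσ h hp hf hl hne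
          · have hl1 : h.length % 2 = 1 := by omega
            refine ⟨τ h, ?_, fun e => by omega, fun _ => rfl⟩
            rw [hb1 _ hl1]
            exact hτ h hp hg hl1 hne
        have hsub : unclaimed N (h ++ [m]) ⊂ unclaimed N h := by
          rw [Finset.ssubset_iff_of_subset]
          · obtain ⟨e, he⟩ := hm.2.2
            refine ⟨e, hm.1 he, ?_⟩
            unfold unclaimed
            rw [Finset.mem_filter]
            rintro ⟨_, h3⟩
            exact h3 m (by simp) he
          · intro e he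
            unfold unclaimed at he ⊢
            rw [Finset.mem_filter] at he ⊢
            exact ⟨he.1, fun m' hm' => he.2 m' (by simp [hm'])⟩
        refine ih _ (hn ▸ Finset.card_lt_card hsub) (h ++ [m]) rfl ?_ ?_ ?_
        · intro i hi
          rw [List.length_append, List.length_singleton] at hi
          by_cases hil : i < h.length
          · rw [List.getElem_append_left hil, List.take_append_of_le_length hil.le]
            exact hp i hil
          · have hil' : i = h.length := by omega
            subst hil'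
            simpa using hm
        · intro i hi hi2
          rw [List.length_append, List.length_singleton] at hi
          by_cases hil : i < h.length
          · rw [List.getElem_append_left hil, List.take_append_of_le_length hil.le]
            exact hf i hil hi2
          · have hil' : i = h.length := by omega
            subst hil'
            simpa using hm0 hi2
        · intro i hi hi2
          rw [List.length_append, List.length_singleton] at hi
          by_cases hil : i < h.length
          · rw [List.getElem_append_left hil, List.take_append_of_le_length hil.le]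
            exact hg i hil hi2
          · have hil' : i = h.length := by omega
            subst hil'
            simpa using hm1 hi2
      · exact ⟨h, hp, hf, hg, Finset.not_nonempty_iff_eq_empty.1 hne⟩
  have h0 : IsPlay b₀ b₁ N [] := fun i hi => absurd hi (by simp)
  have h1 : Follows 0 σ [] := fun i hi => absurd hi (by simp)
  have h2 : Follows 1 τ [] := fun i hi => absurd hi (by simp)
  exact key _ [] rfl h0 h1 h2

lemma not_makerWins {m b N q : ℕ} {X : Cls} (h : BreakerPrevents m b N X q) :
    ¬ MakerWins m b N X q := by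
  rintro ⟨σ, hσ, hσ2⟩
  obtain ⟨τ, hτ, hτ2⟩ := h
  obtain ⟨h, hp, hf, hg, hu⟩ := exists_complete_play σ τ hσ hτ
  exact hτ2 h hp hg hu (hσ2 h hp hf hu)

/-- the set of the points of a lattice -/
def pts (q : ℕ) (p : (ℤ × ℤ) × (ℤ × ℤ) × (ℤ × ℤ)) : Finset (ℤ × ℤ) :=
  ((range q) ×ˢ (range q)).image fun x => p.1 + (x.1 : ℤ) • (p.2.1 - p.1) + (x.2 : ℤ) • (p.2.2 - p.1)

open Classical in
/-- the winning sets: determined by three points of the board -/
noncomputable def Fam (N q : ℕ) : Finset (Finset (ℤ × ℤ)) :=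
  ((board N ×ˢ (board N ×ˢ board N)).image (pts q)).filter fun A => A.card = q ^ 2

lemma card_Fam (N q : ℕ) : ((Fam N q).card : ℝ) ≤ (N : ℝ) ^ 6 := by
  classical
  have h1 : (Fam N q).card ≤ (board N ×ˢ (board N ×ˢ board N)).card := by
    unfold Fam
    exact (Finset.card_filter_le _ _).trans Finset.card_image_le
  have h2 : (board N).card = N ^ 2 := by
    unfold board
    rw [card_product, Int.card_Icc, add_sub_cancel_right, Int.toNat_natCast, sq]
  rw [card_product, card_product, h2] at h1
  have h3 : ((Fam N q).card : ℝ) ≤ ((N ^ 2 * (N ^ 2 * N ^ 2) : ℕ) : ℝ) := by exact_mod_cast h1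
  refine h3.trans (le_of_eq ?_)
  push_cast
  ring

/-- every lattice with all points in a subset of the board contains a winning set -/
lemma exists_Fam {N q : ℕ} (hq : 2 ≤ q) {X : Cls} {S : Finset (ℤ × ℤ)} (hS : S ⊆ board N)
    (h : HasLattice X q (S : Set (ℤ × ℤ))) : ∃ A ∈ Fam N q, A ⊆ S := by
  classical
  obtain ⟨u, v, w, hli, -, hall⟩ := h
  refine ⟨pts q (u, u + v, u + w), ?_, ?_⟩
  · unfold Fam
    rw [Finset.mem_filter]
    constructor
    · refine Finset.mem_image.2 ⟨(u, u + v, u + w), ?_, rfl⟩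
      have h1 : u ∈ S := by
        have := hall 0 0 (by omega) (by omega)
        simpa using this
      have h2 : u + v ∈ S := by
        have := hall 1 0 (by omega) (by omega)
        simpa using this
      have h3 : u + w ∈ S := by
        have := hall 0 1 (by omega) (by omega)
        simpa using this
      exact Finset.mem_product.2 ⟨hS h1, Finset.mem_product.2 ⟨hS h2, hS h3⟩⟩
    · unfold pts
      rw [Finset.card_image_of_injOn]
      · rw [card_product, card_range, sq]
      · rintro ⟨i, j⟩ - ⟨i', j'⟩ - he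
        simp only [add_sub_cancel_left] at he
        have h4 : ((i : ℤ) - i') • v + ((j : ℤ) - j') • w = 0 := by
          rw [sub_smul, sub_smul]
          have h5 : (i : ℤ) • v + (j : ℤ) • w = (i' : ℤ) • v + (j' : ℤ) • w := by
            have := he
            rw [add_assoc, add_assoc] at this
            exact add_left_cancel this
          calc (i : ℤ) • v - (i' : ℤ) • v + ((j : ℤ) • w - (j' : ℤ) • w)
              = ((i : ℤ) • v + (j : ℤ) • w) - ((i' : ℤ) • v + (j' : ℤ) • w) := by abel
            _ = 0 := by rw [h5, sub_self]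
        have h6 := LinearIndependent.pair_iff.1 hli _ _ h4
        have e1 : i = i' := by have := h6.1; omega
        have e2 : j = j' := by have := h6.2; omega
        rw [e1, e2]
  · intro x hx
    unfold pts at hx
    rw [Finset.mem_image] at hx
    obtain ⟨⟨i, j⟩, hij, rfl⟩ := hx
    rw [Finset.mem_product, Finset.mem_range, Finset.mem_range] at hij
    simp only [add_sub_cancel_left]
    exact hall i j hij.1 hij.2

/-- the criterion -/
lemma prevents_of (m b N q : ℕ) (hm : 1 ≤ m) (hb : 1 ≤ b) (hq : 2 ≤ q) (X : Cls)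
    (h : (1 + (b : ℝ)) * ((N : ℝ) ^ 6 * (1 / (1 + (b : ℝ)) ^ (1 / (m : ℝ))) ^ (q ^ 2)) < 1) :
    BreakerPrevents m b N X q := by
  classical
  set g : ℝ := (1 + b : ℝ) ^ (1 / (m : ℝ)) with hg
  have hg0 : 0 < g := Real.rpow_pos_of_pos (by positivity) _
  have hpsi : (1 + (b : ℝ)) * Y418.BG.Breaker.psi g (Fam N q) ∅ ∅ < 1 := by
    refine lt_of_le_of_lt ?_ h
    refine mul_le_mul_of_nonneg_left ?_ (by positivity)
    have h1 : Y418.BG.Breaker.psi g (Fam N q) ∅ ∅ = ((Fam N q).card : ℝ) * (1 / g) ^ (q ^ 2) := by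
      unfold Y418.BG.Breaker.psi
      rw [← nsmul_eq_mul, ← Finset.sum_const]
      refine Finset.sum_congr rfl fun A hA => ?_
      unfold Y418.BG.Breaker.w
      rw [if_pos (Finset.disjoint_empty_right _), Finset.sdiff_empty]
      have : A.card = q ^ 2 := by
        unfold Fam at hA
        exact (Finset.mem_filter.1 hA).2
      rw [this]
    rw [h1]
    exact mul_le_mul_of_nonneg_right (card_Fam N q) (by positivity)
  obtain ⟨τ, t1, t2⟩ := BGame.exists_strategy (board N) m b 1 (by norm_num) hb
    (fun M B => Y418.BG.Breaker.psi g (Fam N q) B M < 1)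
    (fun M B => ∀ A ∈ Fam N q, ¬ A ⊆ B)
    (fun h => absurd h (by norm_num))
    (fun _ Q hQ hQc => lt_of_le_of_lt
      (Y418.BG.Breaker.psi_first hm Q (by rw [hQc]; exact min_le_left _ _)) hpsi)
    (by
      intro M B hM hB hMB hG hne
      obtain ⟨R, hR, hRc, hRQ⟩ := Y418.BG.Breaker.exists_reply (F := Fam N q) (a := m) (b := b) hm B M
        (board N \ (M ∪ B)) (by
          rw [Finset.disjoint_left]
          intro x hx hx'
          exact (Finset.mem_sdiff.1 hx).2 (Finset.mem_union_right _ hx'))
      refine ⟨R, hR, hRc, fun Q hQ hQc => ?_⟩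
      refine lt_of_le_of_lt (hRQ Q ?_ ?_) hG
      · intro x hx
        have := Finset.mem_sdiff.1 (hQ hx)
        rw [Finset.mem_sdiff, Finset.mem_sdiff]
        refine ⟨⟨this.1, fun hx' => this.2 (Finset.mem_union_left _ hx')⟩,
          fun hx' => this.2 (Finset.mem_union_right _ hx')⟩
      · rw [hQc]
        exact min_le_left _ _)
    (by
      intro M B hM hB hMB hG _ A hA hAB
      have hd : Disjoint A M := Finset.disjoint_of_subset_left hAB hMB.symm
      exact absurd (Y418.BG.Breaker.psi_ge_one hg0 hA hd hAB) (not_le.2 hG))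
  refine ⟨τ, ?_, ?_⟩
  · intro h hp hf hl hne
    exact t1 h hp hf hl hne
  · intro h hp hf hu hlat
    have h3 : Owned 0 h ⊆ (LatKK.own (board N) 0 h : Set (ℤ × ℤ)) := by
      intro x hx
      obtain ⟨i, hi, hi2, hxi⟩ := hx
      have hleg := hp i hi
      have hxb : x ∈ board N := by
        have := hleg.1 hxi
        unfold unclaimed at this
        exact (Finset.mem_filter.1 this).1
      unfold LatKK.own
      exact Finset.mem_coe.2 (Finset.mem_filter.2 ⟨hxb, i, hi, hi2, hxi⟩)
    have h4 : HasLattice X q (LatKK.own (board N) 0 h : Set (ℤ × ℤ)) := by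
      obtain ⟨u, v, w, h5, h6, h7⟩ := hlat
      exact ⟨u, v, w, h5, h6, fun k l hk hl => h3 (h7 k l hk hl)⟩
    obtain ⟨A, hA, hAS⟩ := exists_Fam hq (LatKK.own_subset (board N) 0 h) h4
    exact t2 h hp hf hu A hA hAS

/-- upper bound for the achievement numbers of all classes, for all biases -/
lemma breaker_upper (m b : ℕ) (c : ℝ) (hm : 1 ≤ m) (hb : 1 ≤ b) (hc : 0 < c)
    (h : 6 * (m : ℝ) < c ^ 2 * Real.log ((b : ℝ) + 1)) :
    ∃ N₀ : ℕ, ∀ N : ℕ, N₀ ≤ N → ∀ (X : Cls) (q : ℕ), c * Real.sqrt (Real.log N) ≤ q →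
      BreakerPrevents m b N X q := by
  have hmr : (1 : ℝ) ≤ m := by exact_mod_cast hm
  have hbr : (1 : ℝ) ≤ b := by exact_mod_cast hb
  have hlb : 0 < Real.log ((b : ℝ) + 1) := Real.log_pos (by linarith)
  -- the gap
  obtain ⟨δ, hδ⟩ : ∃ δ : ℝ, δ = c ^ 2 * Real.log ((b : ℝ) + 1) - 6 * m := ⟨_, rfl⟩
  have hδ0 : 0 < δ := by linarith
  have hev : ∀ᶠ N : ℕ in Filter.atTop, max ((2 / c) ^ 2)
      (m * Real.log ((b : ℝ) + 1) / δ + 1) ≤ Real.log N :=
    (Real.tendsto_log_atTop.comp tendsto_natCast_atTop_atTop).eventually_ge_atTop _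
  obtain ⟨N₀, hN₀⟩ := Filter.eventually_atTop.1 hev
  refine ⟨N₀ + 1, fun N hN X q hq => ?_⟩
  have h1 := hN₀ N (by omega)
  have hlogN1 : (2 / c) ^ 2 ≤ Real.log N := (le_max_left _ _).trans h1
  have hlogN2 : m * Real.log ((b : ℝ) + 1) / δ + 1 ≤ Real.log N := (le_max_right _ _).trans h1
  have hN0 : (0 : ℝ) < N := by
    have : 0 < N := by omega
    exact_mod_cast this
  have hlogN0 : 0 ≤ Real.log N := le_trans (by positivity) hlogN1
  have hs : 2 / c ≤ Real.sqrt (Real.log N) := Real.le_sqrt_of_sq_le hlogN1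
  have hq2r : (2 : ℝ) ≤ q := by
    rw [div_le_iff₀ hc] at hs
    linarith
  have hq2 : 2 ≤ q := by exact_mod_cast hq2r
  refine prevents_of m b N q hm hb hq2 X ?_
  have hqq : c ^ 2 * Real.log N ≤ (q : ℝ) ^ 2 := by
    have h2 : (c * Real.sqrt (Real.log N)) ^ 2 ≤ (q : ℝ) ^ 2 :=
      pow_le_pow_left₀ (by positivity) hq 2
    rwa [mul_pow, Real.sq_sqrt hlogN0] at h2
  have hB0 : (0 : ℝ) < 1 + b := by linarith
  have hg0 : (0 : ℝ) < (1 + (b : ℝ)) ^ (1 / (m : ℝ)) := Real.rpow_pos_of_pos hB0 _
  rw [← Real.log_neg_iff (by positivity), Real.log_mul (by positivity) (by positivity),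
    Real.log_mul (by positivity) (by positivity), Real.log_pow, Real.log_pow, one_div, Real.log_inv,
    Real.log_rpow hB0]
  push_cast
  rw [add_comm 1 (b : ℝ)]
  have h3 : δ * Real.log N > m * Real.log ((b : ℝ) + 1) := by
    have h4 : m * Real.log ((b : ℝ) + 1) / δ < Real.log N := by linarith
    rw [div_lt_iff₀ hδ0] at h4
    linarith
  have h5 : (m : ℝ) * (Real.log ((b : ℝ) + 1) + (6 * Real.log N +
      (q : ℝ) ^ 2 * -(1 / (m : ℝ) * Real.log ((b : ℝ) + 1)))) =
      m * Real.log ((b : ℝ) + 1) + 6 * m * Real.log N - (q : ℝ) ^ 2 * Real.log ((b : ℝ) + 1) := by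
    field_simp
    ring
  have h6 : c ^ 2 * Real.log N * Real.log ((b : ℝ) + 1) ≤ (q : ℝ) ^ 2 * Real.log ((b : ℝ) + 1) :=
    mul_le_mul_of_nonneg_right hqq hlb.le
  have h7 : (m : ℝ) * (Real.log ((b : ℝ) + 1) + (6 * Real.log N +
      (q : ℝ) ^ 2 * -(1 / (m : ℝ) * Real.log ((b : ℝ) + 1)))) < 0 := by
    rw [h5]
    have h8 : δ * Real.log N = c ^ 2 * Real.log N * Real.log ((b : ℝ) + 1) - 6 * m * Real.log N := by
      rw [hδ]
      ring
    linarith
  by_contra hcon
  push Not at hcon
  have h9 := mul_nonneg (show (0 : ℝ) ≤ m by linarith) hcon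
  linarith

end Pool.Agent.Y929.MB
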