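import Pool.Agent.Y929.MB.Prevent

/-!
Avoider's strategy against all `q × q` lattices in the `(a:f)` avoidance game (criterion of Hefetz,
Krivelevich and Szabo).
-/

set_option autoImplicit false
set_option linter.unusedSectionVars false
set_option linter.unusedVariables false

namespace Pool.Agent.Y929.MB

open Finset Pool.Agent Pool.Agent.W315 Pool.Agent.W315.Lat
open Pool.Agent.Y418.BG.Breaker (w psi psi1 w_nonneg psi_nonneg psi1_nonneg psi_insert psi_union_le
  psi_ge_one)

section crit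

variable {E : Type*} [DecidableEq E] {g : ℝ} {F : Finset (Finset E)}

lemma w_insertX (hg : 0 < g) (X Y A : Finset E) (y : E) (hy : y ∉ X) :
    w g (insert y X) Y A = w g X Y A + (g - 1) * (if y ∈ A then w g X Y A else 0) := by
  unfold w
  by_cases hd : Disjoint A Y
  · rw [if_pos hd, if_pos hd]
    by_cases hyA : y ∈ A
    · rw [if_pos hyA]
      have hmem : y ∈ A \ X := Finset.mem_sdiff.2 ⟨hyA, hy⟩
      have e1 : A \ insert y X = (A \ X).erase y := Finset.sdiff_insert _ _ _
      have e2 : ((A \ X).erase y).card + 1 = (A \ X).card := Finset.card_erase_add_one hmem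
      rw [e1, ← e2, pow_succ]
      field_simp
      ring
    · rw [if_neg hyA]
      have e1 : A \ insert y X = A \ X := Finset.sdiff_insert_of_notMem hyA _
      rw [e1]
      ring
  · rw [if_neg hd, if_neg hd]
    simp

lemma psi_insertX (hg : 0 < g) (X Y : Finset E) (y : E) (hy : y ∉ X) :
    psi g F (insert y X) Y = psi g F X Y + (g - 1) * psi1 g F X Y y := by
  unfold psi psi1
  rw [Finset.mul_sum, ← Finset.sum_add_distrib]
  exact Finset.sum_congr rfl fun A _ => w_insertX hg X Y A y hy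

lemma psi1_monoX (hg : 1 ≤ g) (X Y : Finset E) (y z : E) (hy : y ∉ X) :
    psi1 g F X Y z ≤ psi1 g F (insert y X) Y z := by
  have hg0 : 0 < g := by linarith
  unfold psi1
  refine Finset.sum_le_sum fun A _ => ?_
  split_ifs
  · rw [w_insertX hg0 X Y A y hy]
    have h1 : 0 ≤ (if y ∈ A then w g X Y A else 0) := by
      split_ifs
      · exact w_nonneg hg0 _ _ _
      · exact le_rfl
    have := mul_nonneg (sub_nonneg.2 hg) h1
    linarith
  · exact le_rfl

/-- the greedy choice of Avoider -/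
lemma greedy_av {a : ℕ} (ha : 1 ≤ a) (hga : g = 1 + 1 / a) (X Y Fr : Finset E)
    (hX : Disjoint Fr X) : ∀ k ≤ Fr.card, ∃ R ⊆ Fr, R.card = k ∧
    ∀ z ∈ Fr \ R, (a : ℝ) * (psi g F (X ∪ R) Y - psi g F X Y) ≤ k * psi1 g F (X ∪ R) Y z := by
  have har : (0 : ℝ) < a := by exact_mod_cast ha
  have hg1 : 1 ≤ g := by
    rw [hga]
    have : 0 ≤ 1 / (a : ℝ) := by positivity
    linarith
  have hg0 : 0 < g := by linarith
  intro k
  induction k with
  | zero =>
    intro _
    refine ⟨∅, Finset.empty_subset _, rfl, ?_⟩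
    intro z _
    simp
  | succ k ih =>
    intro hk
    obtain ⟨R, hR, hRc, hz⟩ := ih (by omega)
    have hne : (Fr \ R).Nonempty := by
      rw [← Finset.card_pos, Finset.card_sdiff_of_subset hR]
      omega
    obtain ⟨y, hy, hymin⟩ := Finset.exists_min_image (Fr \ R) (fun z => psi1 g F (X ∪ R) Y z) hne
    rw [mem_sdiff] at hy
    have hyX : y ∉ X ∪ R := by
      rw [mem_union, not_or]
      exact ⟨Finset.disjoint_left.1 hX hy.1, hy.2⟩
    refine ⟨insert y R, Finset.insert_subset hy.1 hR, ?_, ?_⟩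
    · rw [Finset.card_insert_of_notMem hy.2, hRc]
    · intro z hz'
      have hzR : z ∈ Fr \ R := by
        rw [mem_sdiff, mem_insert, not_or] at hz'
        exact mem_sdiff.mpr ⟨hz'.1, hz'.2.2⟩
      have h1 := hz z hzR
      have h2 := hymin z hzR
      have e1 : X ∪ insert y R = insert y (X ∪ R) := by
        ext t; simp only [mem_union, mem_insert]; tauto
      have h3 := psi1_monoX (F := F) hg1 (X ∪ R) Y y z hyX
      have h4 := psi_insertX (F := F) hg0 (X ∪ R) Y y hyX
      rw [e1, h4]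
      have hk0 : (0 : ℝ) ≤ k := Nat.cast_nonneg k
      have h5 : (k : ℝ) * psi1 g F (X ∪ R) Y z ≤ k * psi1 g F (insert y (X ∪ R)) Y z :=
        mul_le_mul_of_nonneg_left h3 hk0
      have h6 : (a : ℝ) * ((g - 1) * psi1 g F (X ∪ R) Y y) = psi1 g F (X ∪ R) Y y := by
        rw [hga]
        field_simp
        ring
      push_cast
      have h7 : (a : ℝ) * (psi g F (X ∪ R) Y + (g - 1) * psi1 g F (X ∪ R) Y y - psi g F X Y) =
          a * (psi g F (X ∪ R) Y - psi g F X Y) + a * ((g - 1) * psi1 g F (X ∪ R) Y y) := by ring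
      rw [h7, h6]
      linarith

lemma psi_unionX_le (hg : 1 ≤ g) {a : ℕ} (X Y Q : Finset E) (hQ : Q.card ≤ a) :
    psi g F (X ∪ Q) Y ≤ g ^ a * psi g F X Y := by
  have hg0 : 0 < g := by linarith
  unfold psi
  rw [Finset.mul_sum]
  refine Finset.sum_le_sum fun A _ => ?_
  unfold w
  split_ifs
  · have h1 : (A \ X).card ≤ (A \ (X ∪ Q)).card + a := by
      have e : A \ X ⊆ (A \ (X ∪ Q)) ∪ Q := by
        intro t ht
        rw [mem_sdiff] at ht
        by_cases h : t ∈ Q
        · exact mem_union_right _ h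
        · refine mem_union_left _ (mem_sdiff.2 ⟨ht.1, ?_⟩)
          rw [mem_union, not_or]
          exact ⟨ht.2, h⟩
      have := (Finset.card_le_card e).trans (Finset.card_union_le _ _)
      omega
    have h2 : (1 / g) ^ ((A \ (X ∪ Q)).card + a) ≤ (1 / g) ^ (A \ X).card := by
      apply pow_le_pow_of_le_one (by positivity) _ h1
      rw [div_le_one hg0]
      exact hg
    calc (1 / g) ^ (A \ (X ∪ Q)).card = g ^ a * (1 / g) ^ ((A \ (X ∪ Q)).card + a) := by
          rw [pow_add, one_div, inv_pow, inv_pow]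
          field_simp
      _ ≤ g ^ a * (1 / g) ^ (A \ X).card := mul_le_mul_of_nonneg_left h2 (by positivity)
  · simp

/-- the criterion of Hefetz, Krivelevich and Szabo, for either player as Avoider -/
lemma avoider_win (V : Finset E) (b₀ b₁ p : ℕ) (hp : p < 2) (a f : ℕ)
    (h1 : BGame.bias b₀ b₁ p = a) (h2 : BGame.bias b₀ b₁ (1 - p) = f) (ha : 1 ≤ a) (hf : 1 ≤ f)
    (hga : g = 1 + 1 / a) (hbig : g ^ a * psi g F ∅ ∅ < 1) :
    ∃ σ : List (Finset E) → Finset E,
      (∀ h : List (Finset E), BGame.Legal V b₀ b₁ h → BGame.Follows p σ h → h.length % 2 = p →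
        (LatKK.free V h).Nonempty → BGame.IsMove V (BGame.bias b₀ b₁ p) h (σ h)) ∧
      (∀ h : List (Finset E), BGame.Legal V b₀ b₁ h → BGame.Follows p σ h → LatKK.free V h = ∅ →
        ∀ A ∈ F, ¬ A ⊆ LatKK.own V p h) := by
  have har : (0 : ℝ) < a := by exact_mod_cast ha
  have hg1 : 1 ≤ g := by
    rw [hga]
    have : 0 ≤ 1 / (a : ℝ) := by positivity
    linarith
  have hg0 : 0 < g := by linarith
  have hfull : ∀ M B : Finset E, Disjoint M B → psi g F M B < 1 → ∀ A ∈ F, ¬ A ⊆ M := by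
    intro M B hMB h A hA hAM
    exact absurd (psi_ge_one hg0 hA (Finset.disjoint_of_subset_left hAM hMB) hAM) (not_le.2 h)
  have hle : ∀ x : ℝ, 0 ≤ x → g ^ a * x < 1 → x < 1 := by
    intro x hx h
    have : 1 ≤ g ^ a := one_le_pow₀ hg1
    nlinarith
  refine BGame.exists_strategy V b₀ b₁ p hp (by rw [h1]; exact ha)
    (fun M B => g ^ a * psi g F M B < 1 ∨ (V \ (M ∪ B) = ∅ ∧ ∀ A ∈ F, ¬ A ⊆ M))
    (fun M _ => ∀ A ∈ F, ¬ A ⊆ M) (fun _ => Or.inl hbig) (fun _ b hb hbc => Or.inl ?_) ?_ ?_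
  · refine lt_of_le_of_lt (mul_le_mul_of_nonneg_left ?_ (by positivity)) hbig
    have := psi_union_le (F := F) hg0 ∅ ∅ b
    rwa [Finset.empty_union] at this
  · intro M B hM hB hMB hG hne
    rcases hG with hG | ⟨hG, -⟩
    · rw [h1, h2]
      have hX : Disjoint (V \ (M ∪ B)) M := by
        rw [Finset.disjoint_left]
        intro x hx hx'
        exact (Finset.mem_sdiff.1 hx).2 (Finset.mem_union_left _ hx')
      by_cases hc : (V \ (M ∪ B)).card ≤ a
      · refine ⟨V \ (M ∪ B), Finset.Subset.refl _, by rw [min_eq_right hc], fun b hb hbc => ?_⟩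
        have e1 : V \ (M ∪ B ∪ V \ (M ∪ B)) = ∅ := by
          ext x
          simp only [mem_sdiff, mem_union, notMem_empty, iff_false]
          tauto
        rw [e1, Finset.subset_empty] at hb
        subst hb
        right
        rw [Finset.union_empty]
        refine ⟨?_, hfull _ B ?_ (lt_of_le_of_lt (psi_unionX_le hg1 M B _ hc) hG)⟩
        · rw [← e1]
          congr 1
          ext x
          simp only [mem_union, mem_sdiff]
          tauto
        · rw [Finset.disjoint_union_left]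
          refine ⟨hMB, ?_⟩
          rw [Finset.disjoint_left]
          intro x hx hx'
          exact (Finset.mem_sdiff.1 hx).2 (Finset.mem_union_right _ hx')
      · push Not at hc
        obtain ⟨m, hm, hmc, hmz⟩ := greedy_av (F := F) ha hga M B (V \ (M ∪ B)) hX a hc.le
        refine ⟨m, hm, by rw [hmc, min_eq_left hc.le], fun b hb hbc => Or.inl ?_⟩
        have e1 : V \ (M ∪ B ∪ m) = (V \ (M ∪ B)) \ m := by
          ext x
          simp only [mem_sdiff, mem_union]
          tauto
        rw [e1] at hb hbc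
        have hpos : 0 < ((V \ (M ∪ B)) \ m).card := by
          rw [Finset.card_sdiff_of_subset hm]
          omega
        have hbne : b.Nonempty := by
          rw [← Finset.card_pos, hbc]
          omega
        obtain ⟨e, he⟩ := hbne
        have h3 := hmz e (hb he)
        have h4 : psi g F (M ∪ m) B - psi g F M B ≤ psi1 g F (M ∪ m) B e :=
          le_of_mul_le_mul_left h3 har
        have h5 := psi_insert (g := g) (F := F) (M ∪ m) B e
        have h6 : psi g F (M ∪ m) (B ∪ b) ≤ psi g F (M ∪ m) (insert e B) := by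
          have h7 := psi_union_le (F := F) hg0 (M ∪ m) (insert e B) b
          have e2 : insert e B ∪ b = B ∪ b := by
            ext x
            simp only [mem_union, mem_insert]
            constructor
            · rintro ((rfl | h) | h)
              · exact Or.inr he
              · exact Or.inl h
              · exact Or.inr h
            · rintro (h | h)
              · exact Or.inl (Or.inr h)
              · exact Or.inr h
          rwa [e2] at h7
        refine lt_of_le_of_lt (mul_le_mul_of_nonneg_left ?_ (by positivity)) hG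
        linarith
    · rw [hG] at hne
      exact absurd hne Finset.not_nonempty_empty
  · intro M B hM hB hMB hG hend
    rcases hG with hG | ⟨-, hG⟩
    · exact hfull M B hMB (hle _ (psi_nonneg hg0 _ _) hG)
    · exact hG

end crit

/-- The player `p` has a strategy with which, at the end of every play, the player `r` does not own all
points of a `q × q` lattice of class `X`. -/
def CanPrevent (b₀ b₁ N p r : ℕ) (X : Cls) (q : ℕ) : Prop :=
  ∃ σ : List (Finset (ℤ × ℤ)) → Finset (ℤ × ℤ), IsStrategy b₀ b₁ N p σ ∧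
    ∀ h : List (Finset (ℤ × ℤ)), IsPlay b₀ b₁ N h → Follows p σ h → unclaimed N h = ∅ →
      ¬ HasLattice X q (Owned r h)

lemma prevent_av (b₀ b₁ N p a f q : ℕ) (hp : p < 2) (h1 : BGame.bias b₀ b₁ p = a)
    (h2 : BGame.bias b₀ b₁ (1 - p) = f) (ha : 1 ≤ a) (hf : 1 ≤ f) (hq : 2 ≤ q) (X : Cls)
    (h : (1 + 1 / (a : ℝ)) ^ a * ((N : ℝ) ^ 6 * (1 / (1 + 1 / (a : ℝ))) ^ (q ^ 2)) < 1) :
    CanPrevent b₀ b₁ N p p X q := by
  classical
  obtain ⟨g, hg⟩ : ∃ g : ℝ, g = 1 + 1 / (a : ℝ) := ⟨_, rfl⟩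
  rw [← hg] at h
  have har : (0 : ℝ) < a := by exact_mod_cast ha
  have hg0 : 0 < g := by
    rw [hg]
    positivity
  have hpsi : g ^ a * psi g (Fam N q) ∅ ∅ < 1 := by
    refine lt_of_le_of_lt ?_ h
    refine mul_le_mul_of_nonneg_left ?_ (by positivity)
    have h1 : psi g (Fam N q) ∅ ∅ = ((Fam N q).card : ℝ) * (1 / g) ^ (q ^ 2) := by
      unfold psi
      rw [← nsmul_eq_mul, ← Finset.sum_const]
      refine Finset.sum_congr rfl fun A hA => ?_
      unfold w
      rw [if_pos (Finset.disjoint_empty_right _), Finset.sdiff_empty]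
      have : A.card = q ^ 2 := by
        unfold Fam at hA
        exact (Finset.mem_filter.1 hA).2
      rw [this]
    rw [h1]
    exact mul_le_mul_of_nonneg_right (card_Fam N q) (by positivity)
  obtain ⟨σ, s1, s2⟩ := avoider_win (F := Fam N q) (board N) b₀ b₁ p hp a f h1 h2 ha hf hg hpsi
  refine ⟨σ, ?_, ?_⟩
  · intro h hp hf hl hne
    exact s1 h hp hf hl hne
  · intro h hpl hfo hu hlat
    have h3 : Owned p h ⊆ (LatKK.own (board N) p h : Set (ℤ × ℤ)) := by
      intro x hx
      obtain ⟨i, hi, hi2, hxi⟩ := hx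
      have hleg := hpl i hi
      have hxb : x ∈ board N := by
        have := hleg.1 hxi
        unfold unclaimed at this
        exact (Finset.mem_filter.1 this).1
      unfold LatKK.own
      exact Finset.mem_coe.2 (Finset.mem_filter.2 ⟨hxb, i, hi, hi2, hxi⟩)
    have h4 : HasLattice X q (LatKK.own (board N) p h : Set (ℤ × ℤ)) := by
      obtain ⟨u, v, w, h5, h6, h7⟩ := hlat
      exact ⟨u, v, w, h5, h6, fun k l hk hl => h3 (h7 k l hk hl)⟩
    obtain ⟨A, hA, hAS⟩ := exists_Fam hq (LatKK.own_subset (board N) p h) h4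
    exact s2 h hpl hfo hu A hA hAS

lemma not_second {a f N q : ℕ} {X : Cls} (h : CanPrevent a f N 0 0 X q) :
    ¬ ForcerWinsSecond a f N X q := by
  rintro ⟨τ, hτ, hτ2⟩
  obtain ⟨σ, hσ, hσ2⟩ := h
  obtain ⟨h, hp, hf, hg, hu⟩ := exists_complete_play σ τ hσ hτ
  exact hσ2 h hp hf hu (hτ2 h hp hg hu)

lemma not_first {a f N q : ℕ} {X : Cls} (h : CanPrevent f a N 1 1 X q) :
    ¬ ForcerWinsFirst a f N X q := by
  rintro ⟨σ, hσ, hσ2⟩
  obtain ⟨τ, hτ, hτ2⟩ := h
  obtain ⟨h, hp, hf, hg, hu⟩ := exists_complete_play σ τ hσ hτ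
  exact hτ2 h hp hg hu (hσ2 h hp hf hu)

/-- upper bound for the avoidance numbers of all classes, for all biases -/
lemma avoider_upper (a f : ℕ) (c : ℝ) (ha : 1 ≤ a) (hf : 1 ≤ f) (hc : 0 < c)
    (h : 6 < c ^ 2 * Real.log (1 + 1 / (a : ℝ))) :
    ∃ N₀ : ℕ, ∀ N : ℕ, N₀ ≤ N → ∀ (X : Cls) (q : ℕ), c * Real.sqrt (Real.log N) ≤ q →
      (CanPrevent a f N 0 0 X q ∧ ¬ ForcerWinsSecond a f N X q) ∧
        CanPrevent f a N 1 1 X q ∧ ¬ ForcerWinsFirst a f N X q := by
  have har : (1 : ℝ) ≤ a := by exact_mod_cast ha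
  obtain ⟨g, hg⟩ : ∃ g : ℝ, g = 1 + 1 / (a : ℝ) := ⟨_, rfl⟩
  have hg1 : 1 < g := by
    rw [hg]
    have : 0 < 1 / (a : ℝ) := by positivity
    linarith
  have hg0 : 0 < g := by linarith
  rw [← hg] at h
  have hlg : 0 < Real.log g := Real.log_pos hg1
  obtain ⟨δ, hδ⟩ : ∃ δ : ℝ, δ = c ^ 2 * Real.log g - 6 := ⟨_, rfl⟩
  have hδ0 : 0 < δ := by linarith
  have hev : ∀ᶠ N : ℕ in Filter.atTop, max ((2 / c) ^ 2)
      (a * Real.log g / δ + 1) ≤ Real.log N :=
    (Real.tendsto_log_atTop.comp tendsto_natCast_atTop_atTop).eventually_ge_atTop _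
  obtain ⟨N₀, hN₀⟩ := Filter.eventually_atTop.1 hev
  refine ⟨N₀ + 1, fun N hN X q hq => ?_⟩
  have h1 := hN₀ N (by omega)
  have hlogN1 : (2 / c) ^ 2 ≤ Real.log N := (le_max_left _ _).trans h1
  have hlogN2 : a * Real.log g / δ + 1 ≤ Real.log N := (le_max_right _ _).trans h1
  have hN0 : (0 : ℝ) < N := by
    have : 0 < N := by omega
    exact_mod_cast this
  have hlogN0 : 0 ≤ Real.log N := le_trans (by positivity) hlogN1
  have hs : 2 / c ≤ Real.sqrt (Real.log N) := Real.le_sqrt_of_sq_le hlogN1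
  have hq2r : (2 : ℝ) ≤ q := by
    rw [div_le_iff₀ hc] at hs
    linarith
  have hq2 : 2 ≤ q := by exact_mod_cast hq2r
  have hqq : c ^ 2 * Real.log N ≤ (q : ℝ) ^ 2 := by
    have h2 : (c * Real.sqrt (Real.log N)) ^ 2 ≤ (q : ℝ) ^ 2 :=
      pow_le_pow_left₀ (by positivity) hq 2
    rwa [mul_pow, Real.sq_sqrt hlogN0] at h2
  have hcrit : (1 + 1 / (a : ℝ)) ^ a * ((N : ℝ) ^ 6 * (1 / (1 + 1 / (a : ℝ))) ^ (q ^ 2)) < 1 := by
    rw [← hg, ← Real.log_neg_iff (by positivity), Real.log_mul (by positivity) (by positivity),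
      Real.log_mul (by positivity) (by positivity), Real.log_pow, Real.log_pow, Real.log_pow,
      one_div, Real.log_inv]
    push_cast
    have h3 : a * Real.log g < δ * Real.log N := by
      have h4 : a * Real.log g / δ < Real.log N := by linarith
      rw [div_lt_iff₀ hδ0] at h4
      linarith
    have h6 : c ^ 2 * Real.log N * Real.log g ≤ (q : ℝ) ^ 2 * Real.log g :=
      mul_le_mul_of_nonneg_right hqq hlg.le
    have h8 : δ * Real.log N = c ^ 2 * Real.log N * Real.log g - 6 * Real.log N := by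
      rw [hδ]
      ring
    linarith
  have hA : CanPrevent a f N 0 0 X q :=
    prevent_av a f N 0 a f q (by norm_num) rfl rfl ha hf hq2 X hcrit
  have hB : CanPrevent f a N 1 1 X q :=
    prevent_av f a N 1 a f q (by norm_num) rfl rfl ha hf hq2 X hcrit
  exact ⟨⟨hA, not_second hA⟩, hB, not_first hB⟩

end Pool.Agent.Y929.MB
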