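import Pool.Agent.LatKK.Blocks
import Pool.Agent.W315.BGame

/-!
Maker's criterion for the `(a:k)` game through disjoint blocks of size `a` (a variant of
`Pool/Agent/LatKK/Blocks.lean`, which treats the `(k:k)` game).
-/

set_option autoImplicit false
set_option linter.unusedSectionVars false
set_option linter.unusedVariables false

namespace Pool.Agent.Y929.MB

open Finset
open Pool.Agent.LatKK (free own LL round_step)
open Pool.Agent.W315

section T

variable {β V ι : Type*} [DecidableEq β] [DecidableEq V] [DecidableEq ι]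

/-- Maker's criterion in the `(a:k)` game through disjoint blocks of size `a` -/
theorem block_win (E : Finset β) (a k : ℕ) (ha : 1 ≤ a) (hk : 1 ≤ k) (U : Finset V) (X : V → Finset β)
    (hX : ∀ y ∈ U, X y ⊆ E) (hXk : ∀ y ∈ U, (X y).card = a)
    (hXd : ∀ y ∈ U, ∀ z ∈ U, y ≠ z → Disjoint (X y) (X z))
    (F : Finset ι) (S : ι → Finset V) (hS : ∀ i ∈ F, S i ⊆ U) (Δ : ℝ) (hΔ : 0 < Δ)
    (hcod : ∀ x y : V, x ≠ y → ((F.filter (fun i => x ∈ S i ∧ y ∈ S i)).card : ℝ) ≤ Δ)
    (hbig : (U.card : ℝ) * ((k : ℝ) * ((k : ℝ) + 1) * Δ / 2) < LL F S ((k : ℝ) + 1) ∅ ∅) :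
    ∃ σ : List (Finset β) → Finset β,
      (∀ h : List (Finset β), BGame.Legal E a k h → BGame.Follows 0 σ h → h.length % 2 = 0 →
        (free E h).Nonempty → BGame.IsMove E (BGame.bias a k 0) h (σ h)) ∧
      (∀ h : List (Finset β), BGame.Legal E a k h → BGame.Follows 0 σ h → free E h = ∅ →
        ∃ i ∈ F, ∀ y ∈ S i, X y ⊆ own E 0 h) := by
  classical
  set c0 : ℝ := (k : ℝ) * ((k : ℝ) + 1) * Δ / 2 with hc0
  have hc0' : 0 ≤ c0 := by positivity
  let Mp : Finset β → Finset V := fun M => U.filter (fun y => X y ⊆ M)
  let Bp : Finset β → Finset V := fun B => U.filter (fun y => ¬ Disjoint (X y) B)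
  have hMp : ∀ M y, y ∈ Mp M ↔ y ∈ U ∧ X y ⊆ M := fun M y => by simp [Mp]
  have hBp : ∀ B y, y ∈ Bp B ↔ y ∈ U ∧ ¬ Disjoint (X y) B := fun B y => by simp [Bp]
  let P2 : Finset β → Prop := fun M => ∃ i ∈ F, ∀ y ∈ S i, X y ⊆ M
  let P1 : Finset β → Finset β → Prop := fun M B =>
    (∀ y ∈ U, X y ⊆ M ∨ Disjoint (X y) M) ∧
      LL F S ((k : ℝ) + 1) ∅ ∅ - ((Mp M).card : ℝ) * c0 ≤ LL F S ((k : ℝ) + 1) (Mp M) (Bp B)
  have hne : ∀ y ∈ U, (X y).Nonempty := by
    intro y hy
    rw [← Finset.card_pos, hXk y hy]
    exact ha
  -- no untouched block: phase 2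
  have key : ∀ M B : Finset β, P1 M B → (∀ y ∈ U, ¬ Disjoint (X y) (M ∪ B)) → P2 M := by
    intro M B hP hR
    obtain ⟨hP1, hP2⟩ := hP
    have h1 : ((Mp M).card : ℝ) ≤ (U.card : ℝ) := by
      exact_mod_cast Finset.card_le_card (Finset.filter_subset _ _)
    have h2 : 0 < LL F S ((k : ℝ) + 1) (Mp M) (Bp B) := by
      have h3 : ((Mp M).card : ℝ) * c0 ≤ (U.card : ℝ) * c0 :=
        mul_le_mul_of_nonneg_right h1 hc0'
      linarith
    have h4 : ∃ i ∈ F, Disjoint (S i) (Bp B) := by
      by_contra hcon
      push Not at hcon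
      have h5 : LL F S ((k : ℝ) + 1) (Mp M) (Bp B) = 0 := by
        unfold LL
        apply Finset.sum_eq_zero
        intro i hi
        rw [if_neg (hcon i hi)]
      linarith
    obtain ⟨i, hi, hd⟩ := h4
    refine ⟨i, hi, fun y hy => ?_⟩
    have hyU : y ∈ U := hS i hi hy
    have hyB : y ∉ Bp B := Finset.disjoint_left.1 hd hy
    have hyB' : Disjoint (X y) B := by
      by_contra h
      exact hyB ((hBp B y).2 ⟨hyU, h⟩)
    have hyM : ¬ Disjoint (X y) M := by
      intro h
      exact hR y hyU (Finset.disjoint_union_right.2 ⟨h, hyB'⟩)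
    exact (hP1 y hyU).resolve_right hyM
  have step2 : ∀ M B : Finset β, P2 M → (E \ (M ∪ B)).Nonempty →
      ∃ m : Finset β, m ⊆ E \ (M ∪ B) ∧ m.card = min a (E \ (M ∪ B)).card ∧
        ∀ b : Finset β, b ⊆ E \ (M ∪ B ∪ m) → b.card = min k (E \ (M ∪ B ∪ m)).card →
          (P1 (M ∪ m) (B ∪ b) ∨ P2 (M ∪ m)) := by
    intro M B hP _
    obtain ⟨m, hm1, hm2⟩ := Finset.exists_subset_card_eq
      (min_le_right a (E \ (M ∪ B)).card)
    refine ⟨m, hm1, hm2, fun b _ _ => Or.inr ?_⟩
    obtain ⟨i, hi, h⟩ := hP
    exact ⟨i, hi, fun y hy => (h y hy).trans Finset.subset_union_left⟩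
  refine BGame.exists_strategy E a k 0 (by norm_num) ha (fun M B => P1 M B ∨ P2 M)
    (fun M _ => P2 M) (fun _ => ?_) (fun h => absurd h (by norm_num)) ?_ ?_
  · left
    refine ⟨fun y _ => Or.inr (Finset.disjoint_empty_right _), ?_⟩
    have h1 : Mp ∅ = ∅ := by
      rw [Finset.eq_empty_iff_forall_notMem]
      intro y hy
      obtain ⟨hyU, hy2⟩ := (hMp ∅ y).1 hy
      have := hne y hyU
      rw [Finset.subset_empty.1 hy2] at this
      exact Finset.not_nonempty_empty this
    have h2 : Bp ∅ = ∅ := by
      rw [Finset.eq_empty_iff_forall_notMem]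
      intro y hy
      exact ((hBp ∅ y).1 hy).2 (Finset.disjoint_empty_right _)
    rw [h1, h2]
    simp
  · intro M B hM hB hMB hG hfree
    rcases hG with hP | hP
    · by_cases hR : ∃ y ∈ U, Disjoint (X y) (M ∪ B)
      · obtain ⟨hP1, hP2⟩ := hP
        let R : Finset V := U.filter (fun y => Disjoint (X y) (M ∪ B))
        have hRm : ∀ y, y ∈ R ↔ y ∈ U ∧ Disjoint (X y) (M ∪ B) := fun y => by simp [R]
        have hMBp : Disjoint (Mp M) (Bp B) := by
          rw [Finset.disjoint_left]
          intro y hy hy'
          obtain ⟨_, h1⟩ := (hMp M y).1 hy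
          obtain ⟨_, h2⟩ := (hBp B y).1 hy'
          exact h2 (Finset.disjoint_of_subset_left h1 hMB)
        have hRM : Disjoint R (Mp M) := by
          rw [Finset.disjoint_left]
          intro y hy hy'
          obtain ⟨hyU, h1⟩ := (hRm y).1 hy
          obtain ⟨_, h2⟩ := (hMp M y).1 hy'
          obtain ⟨p, hp⟩ := hne y hyU
          exact Finset.disjoint_left.1 h1 hp (Finset.mem_union_left _ (h2 hp))
        have hRB : Disjoint R (Bp B) := by
          rw [Finset.disjoint_left]
          intro y hy hy'
          obtain ⟨hyU, h1⟩ := (hRm y).1 hy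
          obtain ⟨_, h2⟩ := (hBp B y).1 hy'
          exact h2 (Finset.disjoint_union_right.1 h1).2
        have hcov : ∀ i ∈ F, ∀ v ∈ S i, v ∈ R ∨ v ∈ Mp M ∨ v ∈ Bp B := by
          intro i hi v hv
          have hvU : v ∈ U := hS i hi hv
          by_cases h1 : Disjoint (X v) B
          · rcases hP1 v hvU with h2 | h2
            · exact Or.inr (Or.inl ((hMp M v).2 ⟨hvU, h2⟩))
            · exact Or.inl ((hRm v).2 ⟨hvU, Finset.disjoint_union_right.2 ⟨h2, h1⟩⟩)
          · exact Or.inr (Or.inr ((hBp B v).2 ⟨hvU, h1⟩))
        have hRne : R.Nonempty := by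
          obtain ⟨y, hy, hd⟩ := hR
          exact ⟨y, (hRm y).2 ⟨hy, hd⟩⟩
        obtain ⟨x, hxR, hx⟩ := round_step F S k hk Δ hΔ hcod (Mp M) (Bp B) R hMBp hRne hRM hRB
          hcov
        obtain ⟨hxU, hxd⟩ := (hRm x).1 hxR
        have hxsub : X x ⊆ E \ (M ∪ B) := by
          intro p hp
          rw [Finset.mem_sdiff]
          exact ⟨hX x hxU hp, fun h => Finset.disjoint_left.1 hxd hp h⟩
        refine ⟨X x, hxsub, ?_, ?_⟩
        · rw [hXk x hxU]
          have := Finset.card_le_card hxsub
          rw [hXk x hxU] at this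
          exact (min_eq_left this).symm
        · intro b hb hbc
          left
          have hbk : b.card ≤ k := by rw [hbc]; exact min_le_left _ _
          have hbM : Disjoint M b := by
            rw [Finset.disjoint_left]
            intro p hp hp'
            have := (Finset.mem_sdiff.1 (hb hp')).2
            exact this (Finset.mem_union_left _ (Finset.mem_union_left _ hp))
          have hbX : Disjoint (X x) b := by
            rw [Finset.disjoint_left]
            intro p hp hp'
            have := (Finset.mem_sdiff.1 (hb hp')).2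
            exact this (Finset.mem_union_right _ hp)
          let Y : Finset V := U.filter (fun y => ¬ Disjoint (X y) b)
          have hYm : ∀ y, y ∈ Y ↔ y ∈ U ∧ ¬ Disjoint (X y) b := fun y => by simp [Y]
          have hYc : Y.card ≤ k := by
            refine le_trans ?_ hbk
            have hch : ∀ y ∈ Y, ∃ p, p ∈ X y ∧ p ∈ b := by
              intro y hy
              obtain ⟨_, h⟩ := (hYm y).1 hy
              obtain ⟨p, hp1, hp2⟩ := Finset.not_disjoint_iff.1 h
              exact ⟨p, hp1, hp2⟩
            obtain ⟨p0, hp0⟩ := hne x hxU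
            have : Nonempty β := ⟨p0⟩
            choose! f hf using hch
            apply Finset.card_le_card_of_injOn f
            · intro y hy
              exact (hf y hy).2
            · intro y hy z hz hyz
              by_contra hne'
              have hyU := ((hYm y).1 hy).1
              have hzU := ((hYm z).1 hz).1
              have h1 := (hf y hy).1
              have h2 := (hf z hz).1
              rw [← hyz] at h2
              exact Finset.disjoint_left.1 (hXd y hyU z hzU hne') h1 h2
          have hxY : x ∉ Y := fun h => ((hYm x).1 h).2 hbX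
          have hYM : Disjoint Y (Mp M) := by
            rw [Finset.disjoint_left]
            intro y hy hy'
            obtain ⟨_, h1⟩ := (hYm y).1 hy
            obtain ⟨_, h2⟩ := (hMp M y).1 hy'
            exact h1 (Finset.disjoint_of_subset_left h2 hbM)
          have hfin := hx Y hYc hxY hYM
          have hxM : x ∉ Mp M := fun h => Finset.disjoint_left.1 hRM hxR h
          have e1 : Mp (M ∪ X x) = insert x (Mp M) := by
            ext y
            rw [hMp, Finset.mem_insert, hMp]
            constructor
            · rintro ⟨hyU, h⟩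
              by_cases hyx : y = x
              · exact Or.inl hyx
              · right
                refine ⟨hyU, fun p hp => ?_⟩
                rcases Finset.mem_union.1 (h hp) with h1 | h1
                · exact h1
                · exact absurd h1 (Finset.disjoint_left.1 (hXd y hyU x hxU hyx) hp)
            · rintro (rfl | ⟨hyU, h⟩)
              · exact ⟨hxU, Finset.subset_union_right⟩
              · exact ⟨hyU, h.trans Finset.subset_union_left⟩
          have e2 : Bp (B ∪ b) = Bp B ∪ Y := by
            ext y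
            rw [Finset.mem_union, hBp, hBp, hYm, Finset.disjoint_union_right]
            tauto
          refine ⟨?_, ?_⟩
          · intro y hyU
            by_cases hyx : y = x
            · left
              rw [hyx]
              exact Finset.subset_union_right
            · rcases hP1 y hyU with h | h
              · exact Or.inl (h.trans Finset.subset_union_left)
              · exact Or.inr (Finset.disjoint_union_right.2 ⟨h, hXd y hyU x hxU hyx⟩)
          · rw [e1, e2, Finset.card_insert_of_notMem hxM]
            push_cast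
            have : ((Mp M).card + 1 : ℝ) * c0 = ((Mp M).card : ℝ) * c0 + c0 := by ring
            rw [this]
            linarith
      · push Not at hR
        exact step2 M B (key M B hP hR) hfree
    · exact step2 M B hP hfree
  · intro M B hM hB hMB hG hend
    rcases hG with hP | hP
    · apply key M B hP
      intro y hyU hd
      obtain ⟨p, hp⟩ := hne y hyU
      have hpE := hX y hyU hp
      have hpMB : p ∈ M ∪ B := by
        by_contra h
        have : p ∈ E \ (M ∪ B) := Finset.mem_sdiff.2 ⟨hpE, h⟩
        rw [hend] at this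
        exact Finset.notMem_empty _ this
      exact Finset.disjoint_left.1 hd hp hpMB
    · exact hP

end T

end Pool.Agent.Y929.MB
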