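import Pool.Agent.Y929.MB.Block
import Pool.Agent.W315.ForcerLat

/-!
Maker's strategy for parallelogram lattices in the `(a:b)` game.
-/

set_option autoImplicit false
set_option linter.unusedSectionVars false
set_option linter.unusedVariables false

namespace Pool.Agent.Y929.MB

open Finset Pool.Agent Pool.Agent.W315 Pool.Agent.W315.Lat

lemma maker_lower (a b : ℕ) (c : ℝ) (ha : 1 ≤ a) (hb : 1 ≤ b) (hc : 0 < c)
    (h : c ^ 2 * Real.logb 2 ((b : ℝ) + 1) < 2 * a) :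
    ∃ N₀ : ℕ, ∀ N : ℕ, N₀ ≤ N → ∃ q : ℕ, c * Real.sqrt (Real.logb 2 N) ≤ q ∧
      MakerWins a b N Cls.parallelogram q := by
  have hbr : (1 : ℝ) ≤ b := by exact_mod_cast hb
  obtain ⟨N₀, hN₀⟩ := LatParams.params a ha c hc ((b : ℝ) + 1) (by linarith)
    (16 * b * (b + 1)) (by positivity) h
  refine ⟨N₀, fun N hN => ?_⟩
  obtain ⟨m, R, hm, hR, hcq, hle, hlt⟩ := hN₀ N hN
  refine ⟨a * m, hcq, ?_⟩
  set n := m * (a * m + a - 1) with hn
  have hn1 : 1 ≤ n := by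
    rw [hn]
    refine Nat.mul_pos hm ?_
    have : 1 ≤ a * m := Nat.mul_pos ha hm
    omega
  set U := LatKK.UU a m R with hU
  set F := LatKK.FF a m R with hF
  have hΔ : (0 : ℝ) < ((n : ℝ)) ^ 2 := by
    have : (0 : ℝ) < n := by exact_mod_cast hn1
    positivity
  have hbig : (U.card : ℝ) * ((b : ℝ) * ((b : ℝ) + 1) * (n : ℝ) ^ 2 / 2) <
      LatKK.LL F (LatKK.SS a m R) ((b : ℝ) + 1) ∅ ∅ := by
    have hr : (1 : ℝ) ≤ (b : ℝ) + 1 := by linarith
    have hr0 : (0 : ℝ) < (b : ℝ) + 1 := by linarith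
    have hlow : (F.card : ℝ) * ((((b : ℝ) + 1)⁻¹) ^ n / 2) ≤
        LatKK.LL F (LatKK.SS a m R) ((b : ℝ) + 1) ∅ ∅ := by
      unfold LatKK.LL
      rw [← nsmul_eq_mul]
      refine Finset.card_nsmul_le_sum _ _ _ (fun p hp => ?_)
      rw [if_pos (Finset.disjoint_empty_right _), Finset.sdiff_empty]
      unfold LatKK.phi
      have h1 : (((b : ℝ) + 1)⁻¹) ^ n ≤ (((b : ℝ) + 1)⁻¹) ^ (LatKK.SS a m R p).card :=
        pow_le_pow_of_le_one (by positivity) (inv_le_one_of_one_le₀ hr)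
          (LatKK.card_SS_le a m R ha hm p)
      have h2 : 0 ≤ (((b : ℝ) + 1)⁻¹) ^ (2 * (LatKK.SS a m R p).card) := by positivity
      linarith
    refine lt_of_lt_of_le ?_ hlow
    rw [hU, hF, LatKK.card_UU, LatKK.card_FF]
    have hap : (0 : ℝ) < a := by exact_mod_cast ha
    have hmp : (0 : ℝ) < m := by exact_mod_cast hm
    have hRp : (0 : ℝ) < R := by exact_mod_cast hR
    have hpow : (0 : ℝ) < ((b : ℝ) + 1) ^ n := by positivity
    push_cast
    rw [inv_pow]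
    calc (m : ℝ) * (4 * ((a : ℝ) * m * m * R)) ^ 2 * ((b : ℝ) * ((b : ℝ) + 1) * (n : ℝ) ^ 2 / 2)
        = ((a : ℝ) * m * m * R) ^ 2 / (2 * ((b : ℝ) + 1) ^ n) *
          (16 * b * (b + 1) * m * (n : ℝ) ^ 2 * (b + 1) ^ n) := by
          field_simp
          ring
      _ < ((a : ℝ) * m * m * R) ^ 2 / (2 * ((b : ℝ) + 1) ^ n) * (R : ℝ) ^ 2 :=
          mul_lt_mul_of_pos_left hlt (by positivity)
      _ = ((a : ℝ) * m * m * R) ^ 2 * R ^ 2 * ((((b : ℝ) + 1) ^ n)⁻¹ / 2) := by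
          field_simp
  obtain ⟨σ, s1, s2⟩ := block_win (board N) a b ha hb U (LatKK.XX a m R)
    (LatKK.XX_subset a m R N ha hm hR hle) (LatKK.card_XX a m R ha hm hR)
    (LatKK.disj_XX a m R ha hm hR) F (LatKK.SS a m R) (LatKK.SS_subset a m R ha hm hR)
    ((n : ℝ) ^ 2) hΔ (fun x y hxy => by exact_mod_cast LatKK.codeg a m R ha hm x y hxy) hbig
  refine ⟨σ, ?_, ?_⟩
  · intro h hp hf hl hne
    exact s1 h hp hf hl hne
  · intro h hp hf hu
    obtain ⟨p, hpF, hown⟩ := s2 h hp hf hu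
    refine ⟨p.1, (LatKK.Hh a m R - p.2.1, - p.2.2), (m * p.2.1, m * p.2.2),
      LatKK.lattice_indep a m R ha hm hR p hpF, trivial, ?_⟩
    intro i j hi hj
    exact ForcerLat.own_mem h (LatKK.lattice_mem a m R ha hm hR p _ hown i j hi hj)

end Pool.Agent.Y929.MB
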